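import Pool.Agent.Helper57_K9.Stmts

/-!
# Squad K9, row PRT: a power which gives the `ℓ'`-part of all elements
-/

noncomputable section

namespace Pool.Agent.PP.K9.H27

open Pool.Agent.PP

theorem prt : PrtStmt := by
  intro ℓ hp G _ _
  have hcard : Nat.card G ≠ 0 := Nat.card_pos.ne'
  obtain ⟨a, m, hm, hG⟩ := Nat.exists_eq_pow_mul_and_not_dvd hcard ℓ hp.out.ne_one
  have hcop : Nat.Coprime ℓ m := (hp.out.coprime_iff_not_dvd).2 hm
  have hcop' : Nat.Coprime (ℓ ^ a) m := hcop.pow_left a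
  obtain ⟨N, hN0, hN1⟩ := Nat.chineseRemainder hcop' 0 1
  have hN0' : ℓ ^ a ∣ N := (Nat.modEq_zero_iff_dvd).1 hN0
  have hord : ∀ g : G, orderOf g ∣ ℓ ^ a * m := fun g => hG ▸ orderOf_dvd_natCard g
  refine ⟨N, fun g => ⟨?_, a, ?_⟩, ?_⟩
  · have h1 : orderOf (g ^ N) ∣ m := by
      apply orderOf_dvd_of_pow_eq_one
      rw [← pow_mul]
      obtain ⟨k, hk⟩ := hN0'
      apply orderOf_dvd_iff_pow_eq_one.1
      refine (hord g).trans ?_
      rw [hk]
      exact ⟨k, by ring⟩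
    exact (Nat.Coprime.coprime_dvd_left h1 hcop.symm)
  · have hc : Commute (g ^ N)⁻¹ g := ((Commute.refl g).pow_left N).inv_left
    rw [hc.mul_pow, inv_pow, inv_mul_eq_one, ← pow_mul, pow_eq_pow_iff_modEq]
    apply Nat.ModEq.of_dvd (hord g)
    rw [mul_comm (ℓ ^ a) m]
    have h1 : N * ℓ ^ a ≡ 1 * ℓ ^ a [MOD m * ℓ ^ a] := Nat.ModEq.mul_right' (ℓ ^ a) hN1
    rwa [one_mul] at h1
  · rintro x y hxy hx ⟨n, hy⟩
    rw [hxy.mul_pow]
    have h1 : y ^ N = 1 := by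
      apply orderOf_dvd_iff_pow_eq_one.1
      have h2 : orderOf y ∣ ℓ ^ n := orderOf_dvd_of_pow_eq_one hy
      have h3 : Nat.Coprime (orderOf y) m := Nat.Coprime.coprime_dvd_left h2 (hcop.pow_left n)
      exact (h3.dvd_of_dvd_mul_right (hord y)).trans hN0'
    have h2 : x ^ N = x := by
      conv_rhs => rw [← pow_one x]
      rw [pow_eq_pow_iff_modEq]
      have h3 : Nat.Coprime (orderOf x) (ℓ ^ a) := Nat.Coprime.pow_right a hx
      exact Nat.ModEq.of_dvd (h3.dvd_of_dvd_mul_left (hord x)) hN1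
    rw [h1, h2, mul_one]

end Pool.Agent.PP.K9.H27
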