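import Pool.Agent.Helper57_K9.Stmts2
import Pool.Agent.Helper75_PP.Fin0
import Pool.Agent.Helper50_PP.Bid
import Pool.Agent.Helper50_PP.Ldp
import Pool.Agent.Helper50_PP.Dic
import Pool.Agent.Helper50_PP.Ffa
import Pool.Agent.Helper20_PP.Nls
import Pool.Agent.Helper20_PP.Ibr
import Pool.Agent.Helper63_PP.Smt
import Pool.Agent.Helper94_PP.Nch

/-!
# Squad K9, row CT9: noncyclic defect groups of order nine, `O_3(G) = 1`
-/

open scoped BigOperators

noncomputable section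

namespace Pool.Agent.PP.K9.H27

open Pool.Agent.Helper51_AWC Pool.Agent.Helper79_WRA Pool.Agent.PP Pool.Agent.PP.KF
open Pool.Agent.PP.K9

attribute [local instance] Ideal.Quotient.field

/-- a noncyclic group of order nine is elementary abelian -/
theorem elab9 {V : Type} [Group V] (h9 : Nat.card V = 9) (hnc : ¬ IsCyclic V) :
    (∀ a b : V, a * b = b * a) ∧ ∀ a : V, a ^ 3 = 1 := by
  have hfin : Finite V := Nat.finite_of_card_ne_zero (by rw [h9]; norm_num)
  have : Fact (Nat.Prime 3) := ⟨Nat.prime_three⟩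
  constructor
  · have h1 : Nat.card V = 3 ^ 2 := by rw [h9]; norm_num
    exact (IsPGroup.commutative_of_card_eq_prime_sq h1)
  · intro a
    have h1 : orderOf a ∣ 3 ^ 2 := by
      have h2 := orderOf_dvd_natCard a
      rw [h9] at h2
      exact h2
    obtain ⟨k, hk, hk2⟩ := (Nat.dvd_prime_pow Nat.prime_three).1 h1
    have h3 : k ≠ 2 := by
      rintro rfl
      apply hnc
      apply isCyclic_of_orderOf_eq_card a
      rw [hk2, h9]
      norm_num
    have h4 : k ≤ 1 := by omega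
    have h5 : orderOf a ∣ 3 := by
      rw [hk2]
      exact (pow_dvd_pow 3 h4).trans (by norm_num)
    exact orderOf_dvd_iff_pow_eq_one.1 h5

/-- CT9 -/
theorem ct9 (nn3 : ML.Nn3Stmt) (k9 : K9Stmt) (chv : ChvStmt) (lbd : LbdStmt) (fmg : FmgStmt) :
    Ct9Stmt := by
  intro M _ hM G _ _ hO e he hpos V hV hV9 hnc
  have : Fact (Nat.Prime 3) := ⟨Nat.prime_three⟩
  have hF : GoodF 3 (FF M) := H50.fld 3 Nat.prime_three M hM
  obtain ⟨f1, ⟨f2, f3⟩, _⟩ := fmg 3 M hM G e he V hV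
  obtain ⟨e1, e2⟩ := elab9 hV9 hnc
  have hdf : DF.DfE 3 (ML.ElAb 3) e ⊤ := by
    intro Q _ hQp hQ
    obtain ⟨g, hg⟩ := f1 Q hQp hQ
    have hmem : ∀ a : Q, g⁻¹ * (a : G) * g ∈ V := fun a => mem_conjS.1 (hg a.2)
    constructor
    · intro a b
      have h1 := congrArg (Subtype.val) (e1 ⟨_, hmem a⟩ ⟨_, hmem b⟩)
      simp only [Subgroup.coe_mul] at h1
      apply Subtype.ext
      simp only [Subgroup.coe_mul]
      have h2 : g * (g⁻¹ * (a : G) * g * (g⁻¹ * (b : G) * g)) * g⁻¹ =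
          g * (g⁻¹ * (b : G) * g * (g⁻¹ * (a : G) * g)) * g⁻¹ := by rw [h1]
      calc (a : G) * b = g * (g⁻¹ * (a : G) * g * (g⁻¹ * (b : G) * g)) * g⁻¹ := by group
        _ = g * (g⁻¹ * (b : G) * g * (g⁻¹ * (a : G) * g)) * g⁻¹ := h2
        _ = (b : G) * a := by group
    · intro a
      have h1 := congrArg (Subtype.val) (e2 ⟨_, hmem a⟩)
      simp only [Subgroup.coe_pow, Subgroup.coe_one] at h1
      apply Subtype.ext
      simp only [Subgroup.coe_pow, Subgroup.coe_one]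
      have h2 : (g⁻¹ * (a : G) * g) ^ 3 = g⁻¹ * (a : G) ^ 3 * g := by
        simp only [pow_succ, pow_zero, one_mul]
        group
      rw [h2] at h1
      calc (a : G) ^ 3 = g * (g⁻¹ * (a : G) ^ 3 * g) * g⁻¹ := by group
        _ = 1 := by rw [h1]; group
  obtain ⟨χ, hχ, h1, _, h3⟩ := H75.block_case H20.nls H20.brm H63.smt H94.nch
    (H50.dic H20.ibn H20.nls H20.brm) H50.bid H50.chp H50.ldp H50.fld Nat.prime_three hM hO he hpos
  have h4 : (9 : ℤ) ∣ altSum 3 M χ := nn3 M hM G hO e he hpos hdf χ hχ h1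
  have h5 := chv 3 M hM G e he V hV (by rw [hV9]; norm_num)
  obtain ⟨a1, a2⟩ := lbd 3 M hM G e he.1 he.2.1
  obtain ⟨b1, b2⟩ := lbd 3 M hM (Subgroup.normalizer (V : Set G)) _ f2.1 f2.2.1
  have a3 := k9 M hM G e he V hV hV9
  have b3 := k9 M hM (Subgroup.normalizer (V : Set G)) _ f2 _ f3 (by
    rw [Nat.card_congr (Subgroup.subgroupOfEquivOfLe (Subgroup.le_normalizer)).toEquiv, hV9])
  set A := {f : G → FF M | f ∈ IBr (FF M) G ∧ actF e f = f}.ncard with hA
  set B := {f : Subgroup.normalizer (V : Set G) → FF M |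
      f ∈ IBr (FF M) (Subgroup.normalizer (V : Set G)) ∧
      actF (fun t : Subgroup.normalizer (V : Set G) => br V e t) f = f}.ncard with hB
  have h6 : (Nat.card G : ℤ) * altSum 3 M χ = (Nat.card G : ℤ) * ((A : ℤ) - (B : ℤ)) := by
    rw [h3, h5]
    ring
  have h7 : (Nat.card G : ℤ) ≠ 0 := by exact_mod_cast Nat.card_pos.ne'
  have h8 : altSum 3 M χ = (A : ℤ) - (B : ℤ) := mul_left_cancel₀ h7 h6
  have h9 : altSum 3 M χ = 0 := by
    obtain ⟨c, hc⟩ := h4
    omega
  rw [← h3, h9, mul_zero]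

end Pool.Agent.PP.K9.H27
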